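import Pool.Agent.L5helper28.HD.Main
import Pool.Agent.L5helper28.HA.Defs

/-!
# Absolutely Hodge classes: the theorem in terms of the short definitions
-/

set_option autoImplicit false
set_option linter.unusedSectionVars false

open CategoryTheory AlgebraicGeometry TensorProduct

universe u v

namespace Pool.Agent.L5helper28.HA

open Module
open Pool.Agent.H914 Pool.Agent.H914.VarClass Pool.Agent.H914.VarClass.Obj
  Pool.Agent.H914.WeilCohomology
open Pool.Agent.Y121 Pool.Agent.Y121.AHS Pool.Agent.N996 Pool.Agent.N996.FP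
open Pool.Agent.Y133.Half (pw ClassPred)
open Pool.Agent.L5helper28.CA (AllIn prod_in snd_in)
open Pool.Agent.L5helper28.IF (Spl)

noncomputable section

variable {k : Type u} [Field k] {𝒱 : VarClass k} {ops : CycleOps 𝒱} {T : HodgeTheory ops}
  {P Y X : 𝒱.Obj}

theorem ne_iff {K A : Type} [Field K] [Algebra K ℂ] [Ring A] [Algebra K A] (x : Ext K ℂ A) :
    x ≠ extSm K ℂ 0 x ↔ x ≠ 0 := by
  have h : extSm K ℂ 0 x = 0 := zero_smul ℂ x
  rw [h]

theorem polarised_of (h : Polarised (coh T X)) : CA.Polarised T X := by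
  obtain ⟨h1, ψ, h2⟩ := h
  refine ⟨ψ, ?_, ?_, ?_, ?_⟩
  · intro p q x hx h0
    exact h1 p q x hx ((ne_iff x).2 h0)
  · intro p q x hx
    obtain ⟨m, z, a, rfl⟩ := HD.exists_el (K := T.W.K) (A := T.W.H X) x
    have h3 := (h2 p q m z a hx).1
    have h4 : conjH T (el (K := T.W.K) (A := T.W.H X) z a) =
      el (K := T.W.K) (A := T.W.H X) (fun i => star (z i)) a :=
      HD.conj_el (K := T.W.K) (A := T.W.H X) T.rat z a
    exact (congrArg (fun t => IsType T.pq q p t) h4).mpr h3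
  · intro p q r s x y hx hy hn
    obtain ⟨m, z, a, rfl⟩ := HD.exists_el (K := T.W.K) (A := T.W.H X) x
    obtain ⟨n, w, b, rfl⟩ := HD.exists_el (K := T.W.K) (A := T.W.H X) y
    exact (HD.bil_el (K := T.W.K) (A := T.W.H X) ψ z a w b).trans
      ((h2 p q m z a hx).2.1 r s n w b hy hn)
  · intro p q x hx h0
    obtain ⟨m, z, a, rfl⟩ := HD.exists_el (K := T.W.K) (A := T.W.H X) x
    obtain ⟨r, hr, h3⟩ := (h2 p q m z a hx).2.2 ((ne_iff _).2 h0)
    refine ⟨r, hr, ?_⟩
    rw [← h3]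
    refine congrArg (fun t => Complex.I ^ (p - q) * t) ?_
    have h4 : conjH T (el (K := T.W.K) (A := T.W.H X) z a) =
      el (K := T.W.K) (A := T.W.H X) (fun i => star (z i)) a :=
      HD.conj_el (K := T.W.K) (A := T.W.H X) T.rat z a
    have h5 : (HD.el (K := T.W.K) (A := T.W.H X) z a) = el (K := T.W.K) (A := T.W.H X) z a := rfl
    rw [h5, h4]
    exact HD.bil_el (K := T.W.K) (A := T.W.H X) ψ z a (fun i => star (z i)) a

/-! ### Independent families -/

theorem inHodgeLie_iff {n : ℕ} {X : Fin n → 𝒱.Obj} {D : Tup fun a => coh T (X a)} :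
    InHodgeLie D ↔ Fam.InHodgeLie (fun a => T.pq (X a)) D := Iff.rfl

theorem independent_iff {ι : Type v} {X : ι → 𝒱.Obj} :
    Independent (fun i => coh T (X i)) ↔ Fam.Independent T X := Iff.rfl

theorem pairwise_of {ι : Type v} {X : ι → 𝒱.Obj} (h : PairwiseIndependent fun i => coh T (X i)) :
    CA.PairwiseIndependent T X :=
  ⟨fun i I h1 h2 => h.1 i I h1 h2, fun e he D hD => h.2 e he D hD⟩

theorem built_of {S : Set 𝒱.Obj} (h : Built T S X) : Fam.Built T S X := by
  induction h with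
  | of h => exact .of h
  | prod _ _ h1 h2 => exact .prod h1 h2
  | gen _ h2 h1 =>
    obtain ⟨f, c, h3, h4⟩ := h2
    exact .gen _ _ f c h1 h3 h4

theorem splitting {ι : Type v} {X : ι → 𝒱.Obj} (hX : ∀ i, Polarised (coh T (X i)))
    (h : Independent (fun i => coh T (X i)) ∨ PairwiseIndependent fun i => coh T (X i)) {Z : 𝒱.Obj}
    (hZ : Polarised (coh T Z)) : ∃ S : Set ι, S.Finite ∧ 2 * S.ncard ≤ trans T Z ∧
      ∀ P Y : 𝒱.Obj, Built T (X '' Sᶜ) P → Built T (insert Z (X '' S)) Y → Spl T P Y := by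
  obtain ⟨S, h1, h2, h3⟩ := CA.splitting (T := T) (X := X) (fun i => polarised_of (hX i))
    (by
      rcases h with h | h
      · exact .inl (independent_iff.1 h)
      · exact .inr (.inr (pairwise_of h))) (polarised_of hZ)
  exact ⟨S, h1, h2, fun P Y hP hY => h3 P Y (built_of hP) (built_of hY)⟩

variable (D : Full.Conjugates T)

theorem allAbs_iff : (∀ j, AllAbsolute D X j) ↔ AllIn T (AH.absPred (Full.toD D)) X :=
  forall_congr' fun _ => forall_congr' fun _ => imp_congr_right fun _ =>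
    Full.isAbsHodge_iff.symm

/-- **The theorem on absolutely Hodge classes.** -/
theorem main {ι : Type v} (X : ι → 𝒱.Obj) (hX : ∀ i, Polarised (coh T (X i)))
    (h : Independent (fun i => coh T (X i)) ∨ PairwiseIndependent fun i => coh T (X i)) (Z : 𝒱.Obj)
    (hZ : Polarised (coh T Z)) : ∃ S : Set ι, S.Finite ∧ 2 * S.ncard ≤ trans T Z ∧
      ∀ P Y : 𝒱.Obj, Built T (X '' Sᶜ) P → Built T (insert Z (X '' S)) Y →
        IsNonzero (T.W.H P) → (∀ j, AllAbsolute D P j) →
          ((∀ j, AllAbsolute D (P.prod Y) j) ↔ ∀ j, AllAbsolute D Y j) ∧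
            (Y.dim ≤ 3 → AllAbsolute D Y 1 → ∀ j, AllAbsolute D (P.prod Y) j) := by
  obtain ⟨S, hS, h2, h3⟩ := splitting hX h hZ
  refine ⟨S, hS, h2, fun P Y hP hY h1 hPa => ?_⟩
  have hs := h3 P Y hP hY
  have hPa' := (allAbs_iff D).1 hPa
  refine ⟨?_, fun hd h11 => ?_⟩
  · rw [allAbs_iff, allAbs_iff]
    exact ⟨snd_in h1, prod_in hs hPa'⟩
  · rw [allAbs_iff]
    exact prod_in hs hPa' (HD.allIn_three (fun c hc => Full.isAbsHodge_iff.2 (h11 c hc)) hd)

end

end Pool.Agent.L5helper28.HA
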